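import Pool.Agent.Lib.MP_648c71_nt.EX.CycM

/-!
# Sign changes of `λ` at every cubic polynomial, up to dilation, everything explicit

There is an absolute constant `K` such that the following holds for every polynomial `F = a T^3 + b T^2 + c T + d`
with integer coefficients, `a ≠ 0`. Put `B = (K (1 + |a| + |b| + |c| + |d|))^K`. There is `1 ≤ y₀ ≤ B` such that
for every multiple `y ≥ 1` of `y₀` and every `X ≥ 2^B y`: both values `1` and `-1` are taken by `λ(y^3 F(n/y))`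
for at least `log(X/y)/B` integers `1 ≤ n ≤ X`, or both are taken for at least `log(X/y)/B` integers
`-X ≤ n ≤ -1`. If the discriminant of `F` is a nonzero square, then both statements hold.
-/

set_option autoImplicit false

namespace Pool.Agent.Results.MP_648c71_nt.AllCubics

open Pool.Agent.Lib.MP_648c71_nt ArithmeticFunction

/-- Each of `1`, `-1` is the value of `λ(y^3 F(n/y))` for at least `t` integers `u ≤ n ≤ v`. -/
def Both (a b c d : ℤ) (y : ℕ) (u v : ℤ) (t : ℝ) : Prop :=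
  ∀ s : ℤ, s = 1 ∨ s = -1 → t ≤ ({n : ℤ | u ≤ n ∧ n ≤ v ∧
    liouville (a * n ^ 3 + b * y * n ^ 2 + c * y ^ 2 * n + d * y ^ 3).natAbs = s}.ncard : ℝ)

theorem form_eq (a b c d n y : ℤ) : MP648Diag.form a b c d n y =
    a * n ^ 3 + b * y * n ^ 2 + c * y ^ 2 * n + d * y ^ 3 := by
  unfold MP648Diag.form
  ring

theorem both_pos {a b c d : ℤ} {y X : ℕ} {t : ℝ} (h : ∀ s : ℤ, (s = 1 ∨ s = -1) →
    t ≤ (((Finset.Icc (1 : ℤ) X).filter (fun n => lam (MP648Diag.form a b c d n y) = s)).card : ℝ)) :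
    Both a b c d y 1 X t := by
  intro s hs
  refine (h s hs).trans ?_
  rw [← Set.ncard_coe_finset]
  apply Nat.cast_le.2
  apply Set.ncard_le_ncard
  · intro n hn
    rw [Finset.coe_filter] at hn
    obtain ⟨h2, h3⟩ := hn
    rw [Finset.mem_Icc] at h2
    refine ⟨h2.1, h2.2, ?_⟩
    rw [← form_eq]
    exact h3
  · exact (Set.finite_Icc (1 : ℤ) X).subset fun n hn => ⟨hn.1, hn.2.1⟩

theorem both_neg {a b c d : ℤ} {y X : ℕ} {t : ℝ} (h : ∀ s : ℤ, (s = 1 ∨ s = -1) →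
    t ≤ (((Finset.Icc (1 : ℤ) X).filter (fun n => lam (MP648Diag.form a b c d (-n) y) = s)).card : ℝ)) :
    Both a b c d y (-X) (-1) t := by
  intro s hs
  refine (h s hs).trans ?_
  apply Nat.cast_le.2
  rw [← Set.ncard_coe_finset]
  refine Set.ncard_le_ncard_of_injOn (fun n => -n) ?_ ?_
    (ht := (Set.finite_Icc (-(X : ℤ)) (-1)).subset fun n hn => ⟨hn.1, hn.2.1⟩)
  · intro n hn
    rw [Finset.coe_filter] at hn
    obtain ⟨h2, h3⟩ := hn
    rw [Finset.mem_Icc] at h2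
    refine ⟨by linarith [h2.2], by linarith [h2.1], ?_⟩
    rw [← form_eq]
    exact h3
  · intro i _ j _ hij
    exact neg_injective hij

theorem result : ∃ K : ℕ, ∀ (a b c d : ℤ) (B : ℕ), a ≠ 0 →
    B = (K * (1 + a.natAbs + b.natAbs + c.natAbs + d.natAbs)) ^ K →
    ∃ y₀ : ℕ, 1 ≤ y₀ ∧ y₀ ≤ B ∧ ∀ y : ℕ, 1 ≤ y → y₀ ∣ y → ∀ X : ℕ, y * 2 ^ B ≤ X →
      (Both a b c d y 1 X (Real.log (X / y) / B) ∨ Both a b c d y (-X) (-1) (Real.log (X / y) / B)) ∧
      (∀ r : ℤ, r ≠ 0 →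
        b ^ 2 * c ^ 2 - 4 * a * c ^ 3 - 4 * b ^ 3 * d - 27 * a ^ 2 * d ^ 2 + 18 * a * b * c * d = r ^ 2 →
        Both a b c d y 1 X (Real.log (X / y) / B) ∧ Both a b c d y (-X) (-1) (Real.log (X / y) / B)) := by
  obtain ⟨K, hK⟩ := MP648Diag.all_final
  refine ⟨K, fun a b c d B ha hB => ?_⟩
  obtain ⟨y₀, hy₀, hy₀B, h⟩ := hK a b c d ha
  rw [← hB] at hy₀B h
  have hy0 : ((y₀.toNat : ℕ) : ℤ) = y₀ := Int.toNat_of_nonneg hy₀.le
  refine ⟨y₀.toNat, by omega, by omega, fun y hy hdvd X hX0 => ?_⟩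
  obtain ⟨h1, h2⟩ := h y (by exact_mod_cast hy) (by rw [← hy0]; exact_mod_cast hdvd) X (by exact_mod_cast hX0)
  refine ⟨?_, fun r hr hd => ?_⟩
  · rcases h1 with h1 | h1
    · exact Or.inl (both_pos h1)
    · exact Or.inr (both_neg h1)
  · obtain ⟨h3, h4⟩ := h2 r hr hd
    exact ⟨both_pos h3, both_neg h4⟩

end Pool.Agent.Results.MP_648c71_nt.AllCubics
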