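import Mathlib
import Pool.Agent.Lib.MP_648c71_nt.Qap.K
import Pool.Agent.Lib.MP_648c71_nt.Refl.Main

/-!
`λ(f(t))` takes both signs in every arithmetic progression, for every quadratic polynomial `f` with
non-square discriminant; for every polynomial `F ≠ 0` it takes both signs along `F(T) ∏_{j ∈ J} q(T+j)`, `q` quadratic,
for all finite sets `J` but at most one; and it takes both signs at products of a quadratic (or linear) polynomial and
a polynomial of any degree which is symmetric about another point.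
-/

set_option autoImplicit false

namespace Pool.Agent.Results.MP_648c71_nt.AllQuadratics

open Polynomial

open Pool.Agent.Lib.MP_648c71_nt in
/-- the same with `lam` and a nonnegative exponent -/
theorem aux (a b c : ℤ) (hD : ¬ IsSquare (b ^ 2 - 4 * a * c)) (r q : ℤ) (hq : 0 < q) (s : ℤ)
    (hs : s = 1 ∨ s = -1) (δ : ℝ) (hδ0 : 0 ≤ δ) (hδ : δ < 1 / 2) (N₀ : ℕ) :
    ∃ N : ℕ, N₀ ≤ N ∧ 1 ≤ N ∧ (N : ℝ) ^ δ <
      (({t ∈ Finset.Icc (1 : ℤ) N | t ≡ r [ZMOD q] ∧ lam (a * t ^ 2 + b * t + c) = s}).card : ℝ) := by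
  by_contra hcon
  push Not at hcon
  apply Qap.main a b c hD r q hq s hs δ hδ0 hδ
  refine ⟨N₀ + 1, by positivity, fun X hX => ?_⟩
  have hX' : (1 : ℝ) ≤ X := by exact_mod_cast hX
  have hpow : (1 : ℝ) ≤ (X : ℝ) ^ δ := Real.one_le_rpow hX' hδ0
  rcases le_or_gt N₀ X with h | h
  · refine (hcon X h hX).trans ?_
    have : (1 : ℝ) ≤ (N₀ : ℝ) + 1 := by
      have : (0 : ℝ) ≤ N₀ := by positivity
      linarith
    nlinarith
  · have h1 : ((({t ∈ Finset.Icc (1 : ℤ) X | t ≡ r [ZMOD q] ∧ lam (a * t ^ 2 + b * t + c) = s}).card : ℕ) : ℝ)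
        ≤ X := by
      have h2 : ({t ∈ Finset.Icc (1 : ℤ) X | t ≡ r [ZMOD q] ∧ lam (a * t ^ 2 + b * t + c) = s}).card ≤
          (Finset.Icc (1 : ℤ) X).card := Finset.card_filter_le _ _
      have h3 : (Finset.Icc (1 : ℤ) X).card = X := by simp
      rw [h3] at h2
      exact_mod_cast h2
    have h4 : (X : ℝ) ≤ N₀ := by exact_mod_cast h.le
    have h5 : (0 : ℝ) ≤ N₀ := by positivity
    nlinarith

/-- For every quadratic polynomial `f = aT² + bT + c` with non-square discriminant, every residue class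
`r` mod `q`, each sign `s` and every `δ < 1/2` there are arbitrarily large `N` such that more than `N^δ`
integers `1 ≤ t ≤ N`, `t ≡ r` mod `q`, satisfy `λ(f(t)) = s`. -/
theorem quadratic (a b c : ℤ) (hD : ¬ IsSquare (b ^ 2 - 4 * a * c)) (r q : ℤ) (hq : 0 < q) (s : ℤ)
    (hs : s = 1 ∨ s = -1) (δ : ℝ) (hδ : δ < 1 / 2) (N₀ : ℕ) :
    ∃ N : ℕ, N₀ ≤ N ∧ (N : ℝ) ^ δ <
      ({t : ℤ | 1 ≤ t ∧ t ≤ N ∧ t ≡ r [ZMOD q] ∧
        (-1 : ℤ) ^ ArithmeticFunction.cardFactors (a * t ^ 2 + b * t + c).natAbs = s}.ncard : ℝ) := by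
  obtain ⟨N, h1, h2, h3⟩ := aux a b c hD r q hq s hs (max δ 0) (le_max_right _ _)
    (max_lt hδ (by norm_num)) N₀
  refine ⟨N, h1, ?_⟩
  have hN : (1 : ℝ) ≤ N := by exact_mod_cast h2
  have h4 : (N : ℝ) ^ δ ≤ (N : ℝ) ^ (max δ 0) :=
    Real.rpow_le_rpow_of_exponent_le hN (le_max_left _ _)
  refine (h4.trans_lt h3).trans_le ?_
  have hne : ∀ t : ℤ, a * t ^ 2 + b * t + c ≠ 0 := by
    intro t ht
    apply hD
    refine ⟨2 * a * t + b, ?_⟩
    linear_combination (-4 * a) * ht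
  have hset : {t : ℤ | 1 ≤ t ∧ t ≤ N ∧ t ≡ r [ZMOD q] ∧
        (-1 : ℤ) ^ ArithmeticFunction.cardFactors (a * t ^ 2 + b * t + c).natAbs = s} =
      (({t ∈ Finset.Icc (1 : ℤ) N | t ≡ r [ZMOD q] ∧
        Pool.Agent.Lib.MP_648c71_nt.lam (a * t ^ 2 + b * t + c) = s} : Finset ℤ) : Set ℤ) := by
    ext t
    have hl : Pool.Agent.Lib.MP_648c71_nt.lam (a * t ^ 2 + b * t + c) =
        (-1 : ℤ) ^ ArithmeticFunction.cardFactors (a * t ^ 2 + b * t + c).natAbs := by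
      unfold Pool.Agent.Lib.MP_648c71_nt.lam
      rw [ArithmeticFunction.liouville_apply (by simpa using hne t)]
    simp only [Set.mem_setOf_eq, Finset.coe_filter, Finset.mem_Icc, hl]
    tauto
  rw [hset, Set.ncard_coe_finset]

open Pool.Agent.Lib.MP_648c71_nt.Refl in
/-- each sign occurs arbitrarily far in each class. -/
theorem exists_far {a b c : ℤ} (hD : ¬ IsSquare (b ^ 2 - 4 * a * c)) {r m : ℤ} (hm : 0 < m) {s : ℤ} (hs : s = 1 ∨ s = -1)
    (N : ℤ) : ∃ t : ℤ, N ≤ t ∧ t ≡ r [ZMOD m] ∧ lm (a * t ^ 2 + b * t + c) = s := by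
  by_contra hcon
  push Not at hcon
  obtain ⟨M, hM, h1⟩ := quadratic a b c hD r m hm s hs (1 / 4) (by norm_num) ((N.natAbs + 1) ^ 4)
  have h2 : ({t : ℤ | 1 ≤ t ∧ t ≤ M ∧ t ≡ r [ZMOD m] ∧
      (-1 : ℤ) ^ ArithmeticFunction.cardFactors (a * t ^ 2 + b * t + c).natAbs = s}.ncard : ℝ) ≤ N.natAbs := by
    have h3 : {t : ℤ | 1 ≤ t ∧ t ≤ M ∧ t ≡ r [ZMOD m] ∧
        (-1 : ℤ) ^ ArithmeticFunction.cardFactors (a * t ^ 2 + b * t + c).natAbs = s} ⊆
          ((Finset.Icc (1:ℤ) N.natAbs : Finset ℤ) : Set ℤ) := by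
      rintro t ⟨h4, -, h5, h6⟩
      rw [Finset.coe_Icc]
      refine ⟨h4, ?_⟩
      have h8 : N ≤ N.natAbs := Int.le_natAbs
      by_contra h9
      push Not at h9
      exact hcon t (by linarith) h5 h6
    have h4 := Set.ncard_le_ncard h3 (Finset.finite_toSet _)
    rw [Set.ncard_coe_finset, Int.card_Icc] at h4
    have h5 : ((N.natAbs : ℤ) + 1 - 1).toNat = N.natAbs := by omega
    rw [h5] at h4
    exact_mod_cast h4
  have h3 : ((N.natAbs : ℝ) + 1) ≤ (M : ℝ) ^ (1 / 4 : ℝ) := by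
    have h4 : (((N.natAbs : ℝ) + 1) ^ 4) ≤ M := by exact_mod_cast hM
    have h5 : ((N.natAbs : ℝ) + 1) = ((((N.natAbs : ℝ) + 1) ^ 4) : ℝ) ^ (1 / 4 : ℝ) := by
      rw [← Real.rpow_natCast, ← Real.rpow_mul (by positivity)]
      norm_num
    rw [h5]
    exact Real.rpow_le_rpow (by positivity) h4 (by norm_num)
  linarith

open Pool.Agent.Lib.MP_648c71_nt.Refl in
/-- the window property for `a > 0`. -/
theorem win_pos {a b c : ℤ} (ha : 0 < a) (hD : ¬ IsSquare (b ^ 2 - 4 * a * c)) :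
    Win fun n => lm (a * n ^ 2 + b * n + c) := by
  intro T hT r s hs
  set Δ := b ^ 2 - 4 * a * c with hΔ
  have hb := abs_nonneg b
  have hc := abs_nonneg c
  have hΔn := abs_nonneg Δ
  obtain ⟨n₀, hn0, hn0r, hn0s⟩ := exists_far hD hT (r := r) hs (|b| + |c| + |Δ| + 1)
  have hn0p : 0 < n₀ := by linarith
  have hb1 := neg_abs_le b
  have hc1 := neg_abs_le c
  have hq : 0 < a * n₀ ^ 2 + b * n₀ + c := by
    have h1 : n₀ ^ 2 ≤ a * n₀ ^ 2 := by nlinarith [sq_nonneg n₀]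
    have h2 : -(|b| * n₀) ≤ b * n₀ := by nlinarith
    have h3 : (|c| + 1) * n₀ ≤ (n₀ - |b|) * n₀ := by
      apply mul_le_mul_of_nonneg_right _ hn0p.le
      linarith
    nlinarith
  have hw : 0 < 2 * a * n₀ + b := by
    have : n₀ ≤ a * n₀ := by nlinarith
    linarith
  have hns : ¬ IsSquare (a * (a * n₀ ^ 2 + b * n₀ + c)) := by
    rintro ⟨k, hk⟩
    have h1 : (2 * a * n₀ + b) ^ 2 - (2 * |k|) ^ 2 = Δ := by
      rw [mul_pow, sq_abs, hΔ]
      linear_combination 4 * hk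
    have h2 : (2 * a * n₀ + b - 2 * |k|) * (2 * a * n₀ + b + 2 * |k|) = Δ := by linear_combination h1
    have h3 : Δ ≠ 0 := by
      intro h0
      apply hD
      rw [h0]
      exact ⟨0, by ring⟩
    have h4 : 2 * a * n₀ + b - 2 * |k| ≠ 0 := by
      intro h0
      rw [h0, zero_mul] at h2
      exact h3 h2.symm
    have h5 : abs (2 * a * n₀ + b - 2 * |k|) * abs (2 * a * n₀ + b + 2 * |k|) = |Δ| := by rw [← abs_mul, h2]
    have h6 : 1 ≤ abs (2 * a * n₀ + b - 2 * |k|) := Int.one_le_abs h4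
    have hk0 := abs_nonneg k
    rw [abs_of_pos (by linarith : 0 < 2 * a * n₀ + b + 2 * |k|)] at h5
    have h7 : 2 * a * n₀ + b + 2 * |k| ≤ |Δ| := by
      rw [← h5]
      have : 0 < 2 * a * n₀ + b + 2 * |k| := by linarith
      nlinarith
    have h8 : n₀ ≤ a * n₀ := by nlinarith
    linarith
  obtain ⟨K, Y₀, hY₀, h1⟩ := orbit_window ha hT hq hns hw
  refine ⟨K, Y₀, hY₀, fun Y hY => ?_⟩
  obtain ⟨n, h2, h3, h4, h5⟩ := h1 Y hY
  exact ⟨n, h2, h3, h4.trans hn0r, h5.trans hn0s⟩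

open Pool.Agent.Lib.MP_648c71_nt.Refl in
/-- the window property for quadratic polynomials. -/
theorem win_quadratic {a b c : ℤ} (hD : ¬ IsSquare (b ^ 2 - 4 * a * c)) :
    Win fun n => lm (a * n ^ 2 + b * n + c) := by
  rcases lt_trichotomy a 0 with ha | ha | ha
  · have h1 : ¬ IsSquare ((-b) ^ 2 - 4 * (-a) * (-c)) := by
      have : (-b) ^ 2 - 4 * (-a) * (-c) = b ^ 2 - 4 * a * c := by ring
      rwa [this]
    have h2 := win_pos (neg_pos.2 ha) h1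
    have h3 : (fun n : ℤ => lm (a * n ^ 2 + b * n + c)) = fun n => lm (-a * n ^ 2 + -b * n + -c) := by
      funext n
      rw [← lm_neg]
      congr 1
      ring
    rw [h3]
    exact h2
  · exact absurd ⟨b, by rw [ha]; ring⟩ hD
  · exact win_pos ha hD

open Pool.Agent.Lib.MP_648c71_nt.Refl in
/-- for two different finite sets `J, J'` and any `F` without large zeros, `F ∏_J q(n+j)` or `F ∏_J' q(n+j)` takes both
signs in every long window. -/
theorem pair_window {q : ℤ → ℤ} {B : ℤ} (hq0 : ∀ n, B ≤ |n| → q n ≠ 0) (hwin : Win fun n => lm (q n)) {J J' : Finset ℤ}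
    (hJ : J ≠ J') : ∃ K : ℤ, ∀ (F : ℤ → ℤ) (B' : ℤ), (∀ n, B' ≤ |n| → F n ≠ 0) → ∃ Y₀ : ℤ, ∀ Y, Y₀ ≤ Y →
      ∃ I, (I = J ∨ I = J') ∧ ∀ s : ℤ, s = 1 ∨ s = -1 → ∃ n, Y ≤ n ∧ n ≤ K * Y ∧ lm (F n * ∏ j ∈ I, q (n + j)) = s := by
  classical
  set D := symmDiff J J' with hD
  have hDne : D.Nonempty := by
    rw [Finset.nonempty_iff_ne_empty]
    intro h
    exact hJ (symmDiff_eq_bot.1 (show symmDiff J J' = ⊥ from h))
  obtain ⟨R, hR0, hR⟩ : ∃ R : ℤ, 0 ≤ R ∧ ∀ j ∈ J ∪ J', |j| ≤ R := by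
    refine ⟨∑ j ∈ J ∪ J', |j|, Finset.sum_nonneg fun j _ => abs_nonneg j, fun j hj => ?_⟩
    exact Finset.single_le_sum (f := fun j => |j|) (fun i _ => abs_nonneg i) hj
  obtain ⟨C₁, Y₁, hY₁, h1⟩ := prod_window (fun n => lm_pm (q n)) hwin hDne (Or.inl rfl : (1:ℤ) = 1 ∨ (1:ℤ) = -1)
  obtain ⟨C₂, Y₂, hY₂, h2⟩ := prod_window (fun n => lm_pm (q n)) hwin hDne (Or.inr rfl : (-1:ℤ) = 1 ∨ (-1:ℤ) = -1)
  refine ⟨max C₁ C₂, fun F B' hF => ⟨Y₁ + Y₂ + |B| + |B'| + R + 1, fun Y hY => ?_⟩⟩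
  have hB := le_abs_self B
  have hBn := abs_nonneg B
  have hB' := le_abs_self B'
  have hBn' := abs_nonneg B'
  by_contra hcon
  push Not at hcon
  obtain ⟨s, hs, hsn⟩ := hcon J (Or.inl rfl)
  obtain ⟨s', hs', hsn'⟩ := hcon J' (Or.inr rfl)
  obtain ⟨n, hn, hn', h3⟩ : ∃ n, Y ≤ n ∧ n ≤ max C₁ C₂ * Y ∧ ∏ j ∈ D, lm (q (n + j)) = -(s * s') := by
    have hle1 : C₁ * Y ≤ max C₁ C₂ * Y := mul_le_mul_of_nonneg_right (le_max_left _ _) (by linarith)
    have hle2 : C₂ * Y ≤ max C₁ C₂ * Y := mul_le_mul_of_nonneg_right (le_max_right _ _) (by linarith)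
    have hss : -(s * s') = 1 ∨ -(s * s') = -1 := by
      rcases hs with rfl | rfl <;> rcases hs' with rfl | rfl <;> simp
    rcases hss with h | h <;> rw [h]
    · obtain ⟨n, hn, hn', h4⟩ := h1 Y (by linarith)
      exact ⟨n, hn, hn'.trans hle1, h4⟩
    · obtain ⟨n, hn, hn', h4⟩ := h2 Y (by linarith)
      exact ⟨n, hn, hn'.trans hle2, h4⟩
  have hn0 : 0 < n := by linarith
  have hFn : F n ≠ 0 := hF n (by rw [abs_of_pos hn0]; linarith)
  have hqn : ∀ I ⊆ J ∪ J', ∀ j ∈ I, q (n + j) ≠ 0 := by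
    intro I hI j hj
    apply hq0
    have h4 := abs_le.1 (hR j (hI hj))
    have h5 : 0 ≤ n + j := by linarith
    rw [abs_of_nonneg h5]
    linarith
  have hu : ∀ K : Finset ℤ, (∏ j ∈ K, lm (q (n + j))) * (∏ j ∈ K, lm (q (n + j))) = 1 := by
    intro K
    rw [← Finset.prod_mul_distrib]
    exact Finset.prod_eq_one fun j _ => lm_sq _
  have e4 : (∏ j ∈ J, lm (q (n + j))) * ∏ j ∈ J', lm (q (n + j)) = ∏ j ∈ D, lm (q (n + j)) := by
    have h2 : ∏ j ∈ J, lm (q (n + j)) = (∏ j ∈ J \ J', lm (q (n + j))) * ∏ j ∈ J ∩ J', lm (q (n + j)) := by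
      rw [← Finset.prod_union (Finset.disjoint_sdiff_inter J J'), Finset.sdiff_union_inter]
    have h3 : ∏ j ∈ J', lm (q (n + j)) = (∏ j ∈ J' \ J, lm (q (n + j))) * ∏ j ∈ J ∩ J', lm (q (n + j)) := by
      rw [Finset.inter_comm J J', ← Finset.prod_union (Finset.disjoint_sdiff_inter J' J), Finset.sdiff_union_inter]
    have h4 : ∏ j ∈ D, lm (q (n + j)) = (∏ j ∈ J \ J', lm (q (n + j))) * ∏ j ∈ J' \ J, lm (q (n + j)) := by
      rw [hD, symmDiff_def, Finset.sup_eq_union, Finset.prod_union]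
      exact disjoint_sdiff_sdiff
    rw [h2, h3, h4]
    have h5 := hu (J ∩ J')
    linear_combination ((∏ j ∈ J \ J', lm (q (n + j))) * ∏ j ∈ J' \ J, lm (q (n + j))) * h5
  have key : ∀ I ⊆ J ∪ J', ∀ t : ℤ, t = 1 ∨ t = -1 → lm (F n * ∏ j ∈ I, q (n + j)) ≠ t →
      lm (F n) * ∏ j ∈ I, lm (q (n + j)) = -t := by
    intro I hI t ht hne
    have h5 := hqn I hI
    rw [lm_mul hFn (Finset.prod_ne_zero_iff.2 h5), lm_prod I _ h5] at hne
    have h6 : lm (F n) * ∏ j ∈ I, lm (q (n + j)) = 1 ∨ lm (F n) * ∏ j ∈ I, lm (q (n + j)) = -1 := by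
      rw [← lm_prod I _ h5, ← lm_mul hFn (Finset.prod_ne_zero_iff.2 h5)]
      exact lm_pm _
    rcases ht with rfl | rfl <;> rcases h6 with h6 | h6
    · exact absurd h6 hne
    · rw [h6]
    · rw [h6]; norm_num
    · exact absurd h6 hne
  have k1 := key J Finset.subset_union_left s hs (hsn n hn hn')
  have k2 := key J' Finset.subset_union_right s' hs' (hsn' n hn hn')
  have k3 := lm_sq (F n)
  have hss : s * s' = 1 ∨ s * s' = -1 := by
    rcases hs with rfl | rfl <;> rcases hs' with rfl | rfl <;> simp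
  have k4 : (lm (F n) * ∏ j ∈ J, lm (q (n + j))) * (lm (F n) * ∏ j ∈ J', lm (q (n + j))) = s * s' := by
    rw [k1, k2]; ring
  have k5 : (lm (F n) * ∏ j ∈ J, lm (q (n + j))) * (lm (F n) * ∏ j ∈ J', lm (q (n + j))) = -(s * s') := by
    rw [← h3, ← e4]
    linear_combination ((∏ j ∈ J, lm (q (n + j))) * ∏ j ∈ J', lm (q (n + j))) * k3
  rcases hss with h | h <;> rw [h] at k4 k5 <;> linarith

open Pool.Agent.Lib.MP_648c71_nt.Refl in
/-- reflection with an arbitrary factor `F`: `f = F p` or `f = F ∏_J q(T+j)` has `λ(f(n)) = -λ(f(k₂ - n))` in every long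
window. -/
theorem reflect_factor {q p : ℤ[X]} {k₁ k₂ : ℤ} (hq0 : q ≠ 0) (hp0 : p ≠ 0)
    (hq : q.comp (C k₁ - X) = q ∨ q.comp (C k₁ - X) = -q) (hp : p.comp (C k₂ - X) = p ∨ p.comp (C k₂ - X) = -p)
    (hwin : Win fun n => lm (q.eval n)) {J : Finset ℤ} (hJ : J ≠ J.image fun j => k₁ - k₂ - j) :
    ∃ K : ℤ, ∀ F : ℤ[X], F ≠ 0 → ∃ Y₀ : ℤ, ∀ Y, Y₀ ≤ Y → ∃ f : ℤ[X], (f = F * p ∨ f = F * ∏ j ∈ J, q.comp (X + C j)) ∧
      ∃ n, Y ≤ n ∧ n ≤ K * Y ∧ lm (f.eval n) = -lm (f.eval (k₂ - n)) := by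
  obtain ⟨K, Y₀, hY₀, h1⟩ := reflect_poly hq0 hp0 hq hp hwin hJ
  refine ⟨K, fun F hF => ?_⟩
  have hg : (∏ j ∈ J, q.comp (X + C j)) ≠ 0 := by
    refine Finset.prod_ne_zero_iff.2 fun j _ h0 => hq0 ?_
    have h2 := congrArg (fun g : ℤ[X] => g.comp (X - C j)) h0
    simpa [comp_assoc] using h2
  set g : ℤ[X] := ∏ j ∈ J, q.comp (X + C j) with hgdef
  have hge : ∀ n : ℤ, g.eval n = ∏ j ∈ J, q.eval (n + j) := by
    intro n
    rw [hgdef, eval_prod]
    simp [eval_comp]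
  obtain ⟨B, hB⟩ := eval_ne (mul_ne_zero (mul_ne_zero hF hp0) hg)
  refine ⟨Y₀ + |B| + |k₂|, fun Y hY => ?_⟩
  have hBn := abs_nonneg B
  have hBl := le_abs_self B
  have hkn := abs_nonneg k₂
  have hkl := le_abs_self k₂
  obtain ⟨n, hn, hn', h2⟩ := h1 Y (by linarith)
  simp only [← hge] at h2
  have hne : ∀ m : ℤ, B ≤ |m| → F.eval m ≠ 0 ∧ p.eval m ≠ 0 ∧ g.eval m ≠ 0 := by
    intro m hm
    have h3 := hB m hm
    rw [eval_mul, eval_mul] at h3
    exact ⟨fun h => h3 (by rw [h, zero_mul, zero_mul]), fun h => h3 (by rw [h, mul_zero, zero_mul]),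
      fun h => h3 (by rw [h, mul_zero])⟩
  obtain ⟨a1, a2, a3⟩ := hne n (by rw [abs_of_pos (by linarith)]; linarith)
  obtain ⟨b1, b2, b3⟩ := hne (k₂ - n) (by rw [abs_of_nonpos (by linarith)]; linarith)
  rw [lm_mul a2 a3, lm_mul b2 b3] at h2
  by_cases h4 : lm ((F * p).eval n) = -lm ((F * p).eval (k₂ - n))
  · exact ⟨F * p, Or.inl rfl, n, hn, hn', h4⟩
  refine ⟨F * g, Or.inr rfl, n, hn, hn', ?_⟩
  rw [eval_mul, eval_mul, lm_mul a1 a2, lm_mul b1 b2] at h4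
  rw [eval_mul, eval_mul, lm_mul a1 a3, lm_mul b1 b3]
  have pm : ∀ m : ℤ, lm m = 1 ∨ lm m = -1 := lm_pm
  rcases pm (F.eval n) with c1 | c1 <;> rcases pm (F.eval (k₂ - n)) with c2 | c2 <;>
    rcases pm (p.eval n) with c3 | c3 <;> rcases pm (p.eval (k₂ - n)) with c4 | c4 <;>
    rw [c3, c4] at h2 <;> rw [c1, c2, c3, c4] at h4 <;> rw [c1, c2] <;> first | (exfalso; apply h4; norm_num; done) | linarith

/-- `λ(m) = (-1)^Ω(|m|)` throughout.
(1) Let `aT² + bT + c` have non-square discriminant, `r` mod `m` a residue class, `s` a sign. For every `δ < 1/2` there are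
arbitrarily large `N` such that more than `N^δ` integers `1 ≤ t ≤ N`, `t ≡ r` mod `m`, have `λ = s`; and for some `C`
every interval `[Y, CY]` with `Y` large contains such a `t`.
(2) Let `q = aT² + bT + c` have non-square discriminant, or `a = 0` and `b ≠ 0`. For finite sets `J ≠ J'` of integers
there is a `C` such that for every polynomial `F ≠ 0` and all large `Y` (depending on `F`) one of
`f = F(T) ∏_{j ∈ J} q(T+j)`, `f = F(T) ∏_{j ∈ J'} q(T+j)` has `λ(f(n)) = 1` and `λ(f(n')) = -1` for some `n, n'` in `[Y, CY]`.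
In particular (`F = 1`, `J' = ∅`) this holds for `f = ∏_{j ∈ J} q(T+j)`, `J` nonempty.
(3) If also `q(k₁ - T) = ± q(T)`, `p ≠ 0`, `p(k₂ - T) = ± p(T)`, and `J` is not symmetric about `(k₁ - k₂)/2`, then there
is a `K` such that for every polynomial `F ≠ 0` and all large `Y` one of `f = F p`, `f = F ∏_{j ∈ J} q(T+j)` has
`λ(f(n)) = -λ(f(k₂ - n))` for some `n` in `[Y, KY]`. In particular: (`p` quadratic, `J = {0}`) all quadratic polynomials
`q = T² + kT + c`, `k² - 4c` not a square, such that `λ(F(n) q(n))` is constant for all large `|n|` have the same `k`;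
and (`F` symmetric about `k₂/2`, `p = 1`) `f = F ∏_{j ∈ J} q(T+j)` has `λ(f(n)) = -λ(f(k₂ - n))` in every `[Y, KY]`. -/
theorem result :
    (∀ a b c : ℤ, ¬ IsSquare (b ^ 2 - 4 * a * c) → ∀ r m : ℤ, 0 < m → ∀ s : ℤ, s = 1 ∨ s = -1 →
      (∀ δ : ℝ, δ < 1 / 2 → ∀ N₀ : ℕ, ∃ N : ℕ, N₀ ≤ N ∧ (N : ℝ) ^ δ <
        ({t : ℤ | 1 ≤ t ∧ t ≤ N ∧ t ≡ r [ZMOD m] ∧
          (-1 : ℤ) ^ ArithmeticFunction.cardFactors (a * t ^ 2 + b * t + c).natAbs = s}.ncard : ℝ)) ∧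
      (∃ C Y₀ : ℤ, ∀ Y, Y₀ ≤ Y → ∃ t, Y ≤ t ∧ t ≤ C * Y ∧ t ≡ r [ZMOD m] ∧
        (-1 : ℤ) ^ ArithmeticFunction.cardFactors (a * t ^ 2 + b * t + c).natAbs = s)) ∧
    (∀ a b c : ℤ, ¬ IsSquare (b ^ 2 - 4 * a * c) ∨ a = 0 ∧ b ≠ 0 → ∀ q : ℤ[X], q = C a * X ^ 2 + C b * X + C c →
      (∀ J J' : Finset ℤ, J ≠ J' → ∃ C : ℤ, ∀ F : ℤ[X], F ≠ 0 → ∃ Y₀ : ℤ, ∀ Y, Y₀ ≤ Y → ∃ I, (I = J ∨ I = J') ∧
        ∀ s : ℤ, s = 1 ∨ s = -1 → ∃ n, Y ≤ n ∧ n ≤ C * Y ∧
          (-1 : ℤ) ^ ArithmeticFunction.cardFactors (F.eval n * ∏ j ∈ I, q.eval (n + j)).natAbs = s) ∧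
      (∀ (k₁ k₂ : ℤ) (p : ℤ[X]), (q.comp (C k₁ - X) = q ∨ q.comp (C k₁ - X) = -q) → p ≠ 0 →
        (p.comp (C k₂ - X) = p ∨ p.comp (C k₂ - X) = -p) → ∀ J : Finset ℤ, J ≠ J.image (fun j => k₁ - k₂ - j) →
        ∃ K : ℤ, ∀ F : ℤ[X], F ≠ 0 → ∃ Y₀ : ℤ, ∀ Y, Y₀ ≤ Y →
          ∃ f : ℤ[X], (f = F * p ∨ f = F * ∏ j ∈ J, q.comp (X + C j)) ∧ ∃ n, Y ≤ n ∧ n ≤ K * Y ∧
            (-1 : ℤ) ^ ArithmeticFunction.cardFactors (f.eval n).natAbs =
              -(-1 : ℤ) ^ ArithmeticFunction.cardFactors (f.eval (k₂ - n)).natAbs)) := by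
  refine ⟨fun a b c hD r m hm s hs => ⟨fun δ hδ N₀ => quadratic a b c hD r m hm s hs δ hδ N₀, ?_⟩, ?_⟩
  · obtain ⟨K, Y₀, -, h⟩ := win_quadratic hD m hm r s hs
    exact ⟨K, Y₀, h⟩
  intro a b c habc q hq
  have hev : ∀ n : ℤ, q.eval n = a * n ^ 2 + b * n + c := by
    intro n
    rw [hq]
    simp
  have hwin : Pool.Agent.Lib.MP_648c71_nt.Refl.Win
      fun n => Pool.Agent.Lib.MP_648c71_nt.Refl.lm (q.eval n) := by
    have h1 : (fun n => Pool.Agent.Lib.MP_648c71_nt.Refl.lm (q.eval n)) =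
        fun n => Pool.Agent.Lib.MP_648c71_nt.Refl.lm (a * n ^ 2 + b * n + c) := by
      funext n
      rw [hev]
    rw [h1]
    rcases habc with h | ⟨rfl, hb⟩
    · exact win_quadratic h
    · have h2 := Pool.Agent.Lib.MP_648c71_nt.Refl.win_linear (c := c) hb
      simpa using h2
  have hq0 : q ≠ 0 := by
    rintro rfl
    have h1 := hev 0
    have h2 := hev 1
    have h3 := hev (-1)
    simp only [eval_zero] at h1 h2 h3
    have hc : c = 0 := by linarith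
    have hb : b = 0 := by linarith
    rcases habc with h | ⟨-, h⟩
    · apply h
      rw [hc, hb]
      exact ⟨0, by ring⟩
    · exact h hb
  obtain ⟨B, hB⟩ := Pool.Agent.Lib.MP_648c71_nt.Refl.eval_ne hq0
  refine ⟨fun J J' hJ => ?_, ?_⟩
  · obtain ⟨K, h⟩ := pair_window (q := fun n => q.eval n) hB hwin hJ
    refine ⟨K, fun F hF => ?_⟩
    obtain ⟨B', hB'⟩ := Pool.Agent.Lib.MP_648c71_nt.Refl.eval_ne hF
    exact h (fun n => F.eval n) B' hB'
  · intro k₁ k₂ p hq1 hp0 hp1 J hJ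
    exact reflect_factor hq0 hp0 hq1 hp1 hwin hJ

open Pool.Agent.Lib.MP_648c71_nt.Refl in
/-- Consequence of (3): for every polynomial `F ≠ 0` all the polynomials `q = T² + kT + c`, `k² - 4c` not a square, such that
`λ(F(n) q(n))` is constant for all large `|n|` have the same `k` (if there is one, also those with `k² - 4c` a square). -/
theorem same_centre (F : ℤ[X]) (hF : F ≠ 0) (k c k' c' : ℤ) (h : ¬ IsSquare (k ^ 2 - 4 * 1 * c)) (e e' N : ℤ)
    (he : ∀ n : ℤ, N ≤ |n| → lm (F.eval n * (n ^ 2 + k * n + c)) = e)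
    (he' : ∀ n : ℤ, N ≤ |n| → lm (F.eval n * (n ^ 2 + k' * n + c')) = e') : k = k' := by
  by_contra hkk
  have hq : ∀ a b : ℤ, ((C 1 * X ^ 2 + C a * X + C b : ℤ[X])).comp (C (-a) - X) = C 1 * X ^ 2 + C a * X + C b := by
    intro a b
    simp only [add_comp, mul_comp, pow_comp, X_comp, C_comp, C_neg, map_one, one_mul]
    ring
  have hp0 : (C 1 * X ^ 2 + C k' * X + C c' : ℤ[X]) ≠ 0 := by
    intro h0
    have h1 := congrArg (eval 0) h0
    have h2 := congrArg (eval 1) h0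
    have h3 := congrArg (eval (-1)) h0
    simp at h1 h2 h3
    omega
  have hJ : ({0} : Finset ℤ) ≠ ({0} : Finset ℤ).image (fun j => -k - -k' - j) := by
    intro h0
    rw [Finset.image_singleton, Finset.singleton_inj] at h0
    exact hkk (by linarith)
  obtain ⟨K, hK⟩ := (result.2 1 k c (Or.inl h) _ rfl).2 (-k) (-k') _ (Or.inl (hq k c)) hp0 (Or.inl (hq k' c')) {0} hJ
  obtain ⟨Y₀, hY₀⟩ := hK F hF
  obtain ⟨f, hf, n, hn, -, hfn⟩ := hY₀ (max Y₀ (|N| + |k'| + 1)) (le_max_left _ _)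
  have hN := le_abs_self N
  have hNn := abs_nonneg N
  have hkn := abs_nonneg k'
  have hk1 := le_abs_self k'
  have hk2 := neg_abs_le k'
  have hn2 : |N| + |k'| + 1 ≤ n := (le_max_right _ _).trans hn
  have a1 : N ≤ |n| := by rw [abs_of_pos (by linarith)]; linarith
  have a2 : N ≤ |-k' - n| := by rw [abs_of_nonpos (by linarith)]; linarith
  have key : ∀ a b d : ℤ, (∀ m : ℤ, N ≤ |m| → lm (F.eval m * (m ^ 2 + a * m + b)) = d) →
      f = F * (C 1 * X ^ 2 + C a * X + C b) → False := by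
    intro a b d hd hfe
    have h1 : ∀ m : ℤ, f.eval m = F.eval m * (m ^ 2 + a * m + b) := by
      intro m
      rw [hfe]
      simp
    rw [h1, h1] at hfn
    have h2 := hd n a1
    have h3 := hd (-k' - n) a2
    unfold lm at h2 h3
    rw [h2, h3] at hfn
    have h4 := lm_sq (F.eval n * (n ^ 2 + a * n + b))
    unfold lm at h4
    rw [h2] at h4
    have h5 : d = 0 := by omega
    rw [h5] at h4
    norm_num at h4
  rcases hf with hf | hf
  · exact key k' c' e' he' hf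
  · refine key k c e he ?_
    rw [hf, Finset.prod_singleton]
    simp

end Pool.Agent.Results.MP_648c71_nt.AllQuadratics

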