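import Pool.Agent.Lib.MP_648c71_nt.IC.Fam
import Pool.Agent.Lib.MP_648c71_nt.IC.Cyclic

/-!
# Sign changes of `λ` at the values of single non-cyclic cubic polynomials

`Admissible a b c t` is defined in `IC/Defs.lean`: `f(T + u) = (T^2 - m)(T + d) + d t T` for integers `u`, `d ≠ 0`, `m > 0` not a
square, and `x^2 = t^2 + 4 m y^2`, `t ∣ (y^2 - 1)(d^2 y^2 - m)` for some integers `x`, `y`.
-/

set_option autoImplicit false

namespace Pool.Agent.Results.MP_648c71_nt.IntegerCubics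

open Pool.Agent.Lib.MP_648c71_nt.IC ArithmeticFunction

lemma liouville_eq {n : ℤ} (hn : n ≠ 0) : liouville n.natAbs = l n := by
  unfold l
  rw [liouville_apply (Int.natAbs_ne_zero.2 hn)]

lemma two_signs {a b c t₁ t₂ : ℤ} (h1 : Admissible a b c t₁) (h2 : Admissible a b c t₂) (hpos : 0 < t₁ * t₂)
    (hl : liouville t₁.natAbs ≠ liouville t₂.natAbs) : BothSigns a b c := by
  rw [liouville_eq h1.1, liouville_eq h2.1] at hl
  obtain ⟨δ, hδ, X0, hX⟩ := two_adm h1 h2 hl hpos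
  refine ⟨δ, hδ, ⌈X0⌉₊, fun X hXX => ?_⟩
  have hX0 : X0 ≤ (X : ℝ) := (Nat.le_ceil X0).trans (by exact_mod_cast hXX)
  rcases hX X hX0 with h | h
  · left
    intro s hs
    refine (h s hs).trans (Nat.cast_le.2 (Set.ncard_le_ncard ?_ ((Set.finite_Icc (1 : ℤ) X).subset fun n hn => ⟨hn.1, hn.2.1⟩)))
    rintro n ⟨hn1, hn2, hn3, hn4⟩
    have hn5 : n ≤ (X : ℤ) := by exact_mod_cast (abs_le.1 hn1).2
    exact ⟨hn2, hn5, by rw [liouville_eq hn3]; exact hn4⟩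
  · right
    intro s hs
    refine (h s hs).trans (Nat.cast_le.2 (Set.ncard_le_ncard ?_ ((Set.finite_Icc (-(X : ℤ)) (-1)).subset fun n hn => ⟨hn.1, hn.2.1⟩)))
    rintro n ⟨hn1, hn2, hn3, hn4⟩
    have hn5 : -(X : ℤ) ≤ n := by exact_mod_cast (abs_le.1 hn1).1
    exact ⟨hn5, by omega, by rw [liouville_eq hn3]; exact hn4⟩

/-- Sign changes of the Liouville function at the values of single cubic polynomials; `BothSigns`, `Admissible` and the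
coefficients `famA`, `famB`, `famC` are defined in `IC/Defs.lean`. -/
theorem result :
    (∀ a b c t : ℤ, Admissible a b c t → ∃ δ : ℝ, 0 < δ ∧ ∃ X₀ : ℕ, ∀ X : ℕ, X₀ ≤ X → δ * Real.log X ≤
      ({n : ℤ | |n| ≤ X ∧ liouville (n ^ 3 + a * n ^ 2 + b * n + c).natAbs = liouville t.natAbs}.ncard : ℝ)) ∧
    (∀ a b c t₁ t₂ : ℤ, Admissible a b c t₁ → Admissible a b c t₂ → 0 < t₁ * t₂ →
      liouville t₁.natAbs ≠ liouville t₂.natAbs → BothSigns a b c) ∧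
    (∀ g h : ℤ, g ≠ 0 → g ≠ 1 → h % 4 = 2 →
      BothSigns (famA g h) (famB g h) (famC g h) ∧ ¬ IsSquare (disc (famA g h) (famB g h) (famC g h)) ∧
      (g % 3 ≠ 1 → h % 3 ≠ 0 → Irreducible (Polynomial.X ^ 3 + Polynomial.C (famA g h : ℚ) * Polynomial.X ^ 2
        + Polynomial.C (famB g h : ℚ) * Polynomial.X + Polynomial.C (famC g h : ℚ) : Polynomial ℚ))) ∧
    (∀ g₀ : ℤ, {g : ℤ | ∃ r s : ℚ, r ≠ 0 ∧ ∀ t : ℚ,
      (r * t + s) ^ 3 + famA g 10 * (r * t + s) ^ 2 + famB g 10 * (r * t + s) + famC g 10 =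
        r ^ 3 * (t ^ 3 + famA g₀ 10 * t ^ 2 + famB g₀ 10 * t + famC g₀ 10)}.Finite) ∧
    (∀ a b c d : ℤ, d ≠ 0 → a ^ 2 - 3 * b ≠ 0 → disc a b c = (d * (a ^ 2 - 3 * b)) ^ 2 →
      (∃ X₀ : ℕ, ∀ X : ℕ, X₀ ≤ X → ∀ s : ℤ, (s = 1 ∨ s = -1) →
        ∃ n : ℤ, X < n ∧ n ≤ X ^ 6 ∧ liouville (n ^ 3 + a * n ^ 2 + b * n + c).natAbs = s) ∧
      (2 ≤ |d| → ∃ δ : ℝ, 0 < δ ∧ ∃ X₀ : ℕ, ∀ X : ℕ, X₀ ≤ X → ∀ s : ℤ, (s = 1 ∨ s = -1) → δ * Real.log X ≤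
        ({n : ℤ | X < n ∧ n ≤ X ^ 3 ∧ liouville (n ^ 3 + a * n ^ 2 + b * n + c).natAbs = s}.ncard : ℝ))) := by
  refine ⟨fun a b c t ht => ?_, fun a b c t₁ t₂ h1 h2 hpos hl => two_signs h1 h2 hpos hl,
    fun g h hg0 hg1 hh => ⟨?_, ?_, ?_⟩, ?_, fun a b c d hd hne hdisc => ⟨?_, fun h2 => ?_⟩⟩
  · obtain ⟨δ, hδ, X0, hX⟩ := adm_count l_one_or (fun _ _ => l_mul) ht
    refine ⟨δ, hδ, ⌈X0⌉₊, fun X hXX => ?_⟩
    have hX0 : X0 ≤ (X : ℝ) := (Nat.le_ceil X0).trans (by exact_mod_cast hXX)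
    refine (hX X hX0).trans (Nat.cast_le.2 (Set.ncard_le_ncard ?_ ((Set.finite_Icc (-(X : ℤ)) X).subset
      fun n hn => abs_le.1 hn.1)))
    rintro n ⟨hn1, hn3, hn4⟩
    refine ⟨by exact_mod_cast hn1, ?_⟩
    rw [liouville_eq hn3, liouville_eq ht.1]
    exact hn4
  · refine two_signs (fam_adm1 hg0 hg1 hh) (fam_adm2 hg0 hg1 hh) (by norm_num) ?_
    rw [liouville_eq one_ne_zero, liouville_eq two_ne_zero]
    unfold l
    norm_num [cardFactors_apply_prime Nat.prime_two]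
  · exact fam_disc g h hh
  · exact fam_irreducible g h
  · intro g₀
    refine (fam_classes 10 rfl g₀).subset ?_
    rintro g ⟨r, s, hr, hrs⟩
    refine ⟨r, s, hr, fun t => ?_⟩
    have h1 := hrs t
    unfold famA famB famC at h1
    push_cast at h1 ⊢
    linear_combination h1
  · obtain ⟨X₀, h⟩ := (Cyclic.cyclic a b c d hd hne hdisc).1
    refine ⟨X₀, fun X hX s hs => ?_⟩
    obtain ⟨n, h1, h2, h3, h4⟩ := h X hX s hs
    exact ⟨n, h1, h2, by rw [liouville_eq h3]; exact h4⟩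
  · obtain ⟨δ, hδ, X₀, h⟩ := (Cyclic.cyclic a b c d hd hne hdisc).2 h2
    refine ⟨δ, hδ, X₀, fun X hX s hs => (h X hX s hs).trans (Nat.cast_le.2 (Set.ncard_le_ncard ?_
      ((Set.finite_Icc (X : ℤ) ((X : ℤ) ^ 3)).subset fun n hn => ⟨hn.1.le, hn.2.1⟩)))⟩
    rintro n ⟨h1, h2, h3, h4⟩
    exact ⟨h1, h2, by rw [liouville_eq h3]; exact h4⟩

end Pool.Agent.Results.MP_648c71_nt.IntegerCubics
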