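import Pool.Agent.Lib.MP_648c71_nt.HP.Last

/-!
# Completely multiplicative signs at monic irreducible quadratic polynomials: all large N

For every monic irreducible `f ∈ ℤ[T]` of degree two there is a constant `C` such that for all large `N` each
of the values `1` and `-1` is taken by `λ(f(t))` for at least `N/(log N)^C` integers `1 ≤ t ≤ N`.
The same holds for every completely multiplicative function with values `±1` that takes the value `-1` at some
positive value of `f`.
-/

namespace Pool.Agent.Results.MP_648c71_nt.QuadraticPolylog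

open Polynomial

theorem eq_quadratic {f : Polynomial ℤ} (hm : f.Monic) (hd : f.natDegree = 2) :
    f = X ^ 2 + C (f.coeff 1) * X + C (f.coeff 0) := by
  have h2 : f.coeff 2 = 1 := by rw [← hd]; exact hm.coeff_natDegree
  have h := f.as_sum_range_C_mul_X_pow
  rw [hd] at h
  simp only [Finset.sum_range_succ, Finset.sum_range_zero, zero_add, pow_zero, mul_one, pow_one,
    h2, C_1, one_mul] at h
  rw [h]
  simp only [coeff_add, coeff_C_mul, coeff_X_pow, coeff_C, coeff_X]
  norm_num
  ring

/-- a monic quadratic polynomial with square discriminant is reducible -/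
theorem not_isSquare_disc {f : Polynomial ℤ} (hm : f.Monic) (hd : f.natDegree = 2)
    (hi : Irreducible f) : ¬ IsSquare (f.coeff 1 ^ 2 - 4 * f.coeff 0) := by
  rintro ⟨s, hs⟩
  have hf := eq_quadratic hm hd
  set b := f.coeff 1 with hb
  set c := f.coeff 0 with hc
  have hpar : (2 : ℤ) ∣ b - s := by
    have h1 : (2 : ℤ) ∣ (b - s) * (b + s) := ⟨2 * c, by linear_combination hs⟩
    rcases Int.prime_two.dvd_mul.mp h1 with h | h
    · exact h
    · have : b - s = b + s - 2 * s := by ring
      rw [this]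
      exact dvd_sub h (dvd_mul_right _ _)
  obtain ⟨r, hr⟩ := hpar
  have hbr : b = s + 2 * r := by linarith
  have hcr : c = r * (r + s) := by
    have : 4 * c = 4 * (r * (r + s)) := by rw [hbr] at hs; linear_combination -hs
    linarith
  have hfac : f = (X + C r) * (X + C (r + s)) := by
    have hbC : (C b : ℤ[X]) = C s + 2 * C r := by
      rw [hbr, C_add, C_mul]; rfl
    rw [hf, hcr, hbC, C_mul, C_add]
    ring
  have := hi.isUnit_or_isUnit hfac
  rcases this with h | h
  · exact not_isUnit_X_add_C r h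
  · exact not_isUnit_X_add_C (r + s) h

open Lib.MP_648c71_nt Lib.MP_648c71_nt.HP in
/-- Let `f ∈ ℤ[T]` be monic and irreducible of degree two, and `g` completely multiplicative with values `±1`
(on the nonzero natural numbers), such that `g` is the Liouville function, or `g(f(t)) = -1` for at least one
integer `t` with `f(t) > 0`.  Then there are `C` and `N₀` such that for all `N ≥ N₀` and each sign `s` at least
`N/(log N)^C` integers `1 ≤ t ≤ N` satisfy `g(|f(t)|) = s`. -/
theorem result (f : Polynomial ℤ) (hm : f.Monic) (hd : f.natDegree = 2) (hi : Irreducible f)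
    (g : ℕ → ℤ) (hmul : ∀ m n : ℕ, m ≠ 0 → n ≠ 0 → g (m * n) = g m * g n)
    (hval : ∀ n : ℕ, n ≠ 0 → g n = 1 ∨ g n = -1)
    (hg : (∀ n : ℕ, n ≠ 0 → g n = (-1) ^ ArithmeticFunction.cardFactors n) ∨
      ∃ t : ℤ, 0 < f.eval t ∧ g (f.eval t).natAbs = -1) :
    ∃ C N₀ : ℕ, ∀ N : ℕ, N₀ ≤ N → ∀ s : ℤ, s = 1 ∨ s = -1 →
      (N : ℝ) / Real.log N ^ C ≤
        (((Finset.Icc 1 N).filter (fun t : ℕ => g (f.eval (t : ℤ)).natAbs = s)).card : ℝ) := by
  have hns := not_isSquare_disc hm hd hi
  have hf := eq_quadratic hm hd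
  set b := f.coeff 1 with hb
  set c := f.coeff 0 with hc
  have hev : ∀ t : ℤ, f.eval t = ff b c t := by
    intro t
    rw [hf]
    simp [ff]
  set gr : ℕ → ℝ := fun n => ((g n : ℤ) : ℝ) with hgr
  have hcm : CM gr := by
    refine ⟨fun m n hm hn => ?_, fun n hn => ?_⟩
    · simp only [hgr]
      rw [hmul m n hm.ne' hn.ne']
      push_cast
      rfl
    · simp only [hgr]
      rcases hval n hn.ne' with h | h
      · left; rw [h]; norm_num
      · right; rw [h]; norm_num
  have hneg : ∃ x y : ℤ, 0 < x ^ 2 + b * x * y + c * y ^ 2 ∧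
      gr (x ^ 2 + b * x * y + c * y ^ 2).natAbs = -1 := by
    rcases hg with hg | ⟨t, ht, hgt⟩
    · obtain ⟨x, y, hr, hr2⟩ := exists_neg hns
      refine ⟨x, y, hr, ?_⟩
      simp only [hgr]
      rw [hg _ (Int.natAbs_ne_zero.mpr hr.ne')]
      rw [← hr2]
      simp [lamR]
    · have e : t ^ 2 + b * t * 1 + c * 1 ^ 2 = f.eval t := by rw [hev]; simp only [ff]; ring
      refine ⟨t, 1, by rw [e]; exact ht, ?_⟩
      simp only [hgr]
      rw [e, hgt]
      norm_num
  obtain ⟨⟨C₁, N₁, h1⟩, h2⟩ := both_many hns hcm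
  obtain ⟨C₂, N₂, h2⟩ := h2 hneg
  have hlog : ∀ᶠ M : ℕ in Filter.atTop, 1 ≤ Real.log M :=
    (Real.tendsto_log_atTop.comp tendsto_natCast_atTop_atTop).eventually_ge_atTop 1
  obtain ⟨N₃, h3⟩ := Filter.eventually_atTop.mp hlog
  refine ⟨max C₁ C₂, max N₁ (max N₂ N₃), fun N hN s hs => ?_⟩
  have l1 : N₁ ≤ N := (le_max_left _ _).trans hN
  have l2 : N₂ ≤ N := ((le_max_left _ _).trans (le_max_right _ _)).trans hN
  have l3 : N₃ ≤ N := ((le_max_right _ _).trans (le_max_right _ _)).trans hN
  have hL := h3 N l3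
  have hN0 : (0 : ℝ) ≤ N := Nat.cast_nonneg N
  have key : ∀ (C' : ℕ) (s' : ℝ), C' ≤ max C₁ C₂ → ((s : ℤ) : ℝ) = s' →
      (N : ℝ) / Real.log N ^ C' ≤ cnt gr b c s' N →
      (N : ℝ) / Real.log N ^ (max C₁ C₂) ≤
        (((Finset.Icc 1 N).filter (fun t : ℕ => g (f.eval (t : ℤ)).natAbs = s)).card : ℝ) := by
    intro C' s' hC' hs' h
    have hcnt : cnt gr b c s' N =
        ((Finset.Icc 1 N).filter (fun t : ℕ => g (f.eval (t : ℤ)).natAbs = s)).card := by
      unfold cnt
      congr 1
      apply Finset.filter_congr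
      intro t _
      simp only [hgr, hev, ← hs']
      exact Int.cast_inj
    rw [← hcnt]
    refine le_trans ?_ h
    exact div_le_div_of_nonneg_left hN0 (by positivity) (pow_le_pow_right₀ hL hC')
  rcases hs with hs | hs
  · exact key C₁ 1 (le_max_left _ _) (by rw [hs]; norm_num) (h1 N l1)
  · exact key C₂ (-1) (le_max_right _ _) (by rw [hs]; norm_num) (h2 N l2)

end Pool.Agent.Results.MP_648c71_nt.QuadraticPolylog
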